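import Pool.Agent.Helper2.EQ.M_PSM
import Pool.Agent.Helper33.RG.M_FAM

/-!
# Project EQ, module ALL
-/

set_option autoImplicit false

open MeasureTheory Set Filter Topology
open scoped ENNReal RealInnerProductSpace

namespace Pool.Agent.Helper2.EQ

open Pool.Agent.Helper68.LM (Pl BB Bd Av HL ft fm DQ)
open Pool.Agent.Helper20.RG Pool.Agent.Helper20.EQ

theorem hALL (hYB : StYB) (hKD : StKD) (hPSM : StPSM) (hOCT : StOCT) (hL2B : StL2B) : StALL := by
  classical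
  obtain ⟨CK, hCK, hKD1, -⟩ := hKD
  intro C₀ hC₀
  obtain ⟨CP, hCP, hP⟩ := hPSM C₀ hC₀
  set D : ℝ := CP + 1 with hD
  have hD0 : 0 < D := by positivity
  refine ⟨CK ^ 2 * (8 * D), by positivity, ?_⟩
  intro u s c m m' R K A σ hS W g hg
  have hK : (0 : ℝ) ≤ (K : ℝ) := Nat.cast_nonneg K
  have hu : (0 : ℝ) ≤ (u : ℝ) := Nat.cast_nonneg u
  have h2u : (0 : ℝ) < (2 : ℝ) ^ u := by positivity
  have hmain := hL2B.1 (2 ^ u)
    (fun k j => Z (s j) (c j) (m j) (m' j) ((2 : ℝ) ^ (W j)) k g)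
    (fun j => Zh (s j) (c j) (m j) (m' j) ((2 : ℝ) ^ (W j))) g
    (CK ^ 2 * (8 * D) * (K + u + 1)) hg (by positivity) ?_ ?_
  · exact hmain
  · intro k j hj
    exact Pool.Agent.Helper33.RG.z_ft hYB (s j) (c j) (m j) (m' j) _ k g (hS.slope j hj)
      (by positivity) hg
  · intro ξ hξ
    have hr : 0 < ‖ξ‖ := norm_pos_iff.mpr hξ
    have hnorm : ∀ k : ℤ, ‖((2 : ℝ) ^ k • ξ)‖ = (2 : ℝ) ^ k * ‖ξ‖ := by
      intro k
      rw [norm_smul, Real.norm_of_nonneg (by positivity)]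
    have hne : ∀ k : ℤ, ((2 : ℝ) ^ k • ξ) ≠ 0 := by
      intro k
      exact smul_ne_zero (by positivity) hξ
    have hpq : (-(u : ℤ)) ≤ (K : ℤ) + u := by
      have : (0 : ℤ) ≤ (K : ℤ) := Int.natCast_nonneg K
      have : (0 : ℤ) ≤ (u : ℤ) := Int.natCast_nonneg u
      omega
    have hcast : ∀ k : ℤ, ∑ j ∈ Finset.range (2 ^ u),
        ENNReal.ofReal (Pso (s j) (m j) (m' j) ((2 : ℝ) ^ k • ξ)) =
        ENNReal.ofReal (∑ j ∈ Finset.range (2 ^ u), Pso (s j) (m j) (m' j) ((2 : ℝ) ^ k • ξ)) := by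
      intro k
      rw [ENNReal.ofReal_sum_of_nonneg (fun j _ => (Pso_bd _ _ _ _).1)]
    have hoct := hOCT (fun k => ∑ j ∈ Finset.range (2 ^ u),
        ENNReal.ofReal (Pso (s j) (m j) (m' j) ((2 : ℝ) ^ k • ξ))) ‖ξ‖ D (-(u : ℤ)) ((K : ℤ) + u)
        hr hD0.le hpq ?_ ?_ ?_
    · calc ∑' k : ℤ, ∑ j ∈ Finset.range (2 ^ u),
            ‖Zh (s j) (c j) (m j) (m' j) ((2 : ℝ) ^ (W j)) ((2 : ℝ) ^ k • ξ)‖ₑ ^ 2
          ≤ ∑' k : ℤ, ENNReal.ofReal (CK ^ 2) * ∑ j ∈ Finset.range (2 ^ u),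
            ENNReal.ofReal (Pso (s j) (m j) (m' j) ((2 : ℝ) ^ k • ξ)) := by
            refine ENNReal.tsum_le_tsum fun k => ?_
            rw [Finset.mul_sum]
            refine Finset.sum_le_sum fun j hj => ?_
            have hj' := Finset.mem_range.mp hj
            have h1 := hKD1 (s j) (c j) (m j) (m' j) ((2 : ℝ) ^ (W j)) ((2 : ℝ) ^ k • ξ)
              (hS.mm j hj').1 (one_le_pow₀ (by norm_num)) (hne k)
            obtain ⟨p0, p1, -, -, -⟩ := Pso_bd (s j) (m j) (m' j) ((2 : ℝ) ^ k • ξ)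
            rw [← ofReal_norm, ← ENNReal.ofReal_pow (norm_nonneg _), ← ENNReal.ofReal_mul
              (by positivity)]
            refine ENNReal.ofReal_le_ofReal ?_
            calc ‖Zh (s j) (c j) (m j) (m' j) ((2 : ℝ) ^ (W j)) ((2 : ℝ) ^ k • ξ)‖ ^ 2
                ≤ (CK * Pso (s j) (m j) (m' j) ((2 : ℝ) ^ k • ξ)) ^ 2 :=
                  pow_le_pow_left₀ (norm_nonneg _) h1 2
              _ = CK ^ 2 * (Pso (s j) (m j) (m' j) ((2 : ℝ) ^ k • ξ) *
                    Pso (s j) (m j) (m' j) ((2 : ℝ) ^ k • ξ)) := by ring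
              _ ≤ CK ^ 2 * Pso (s j) (m j) (m' j) ((2 : ℝ) ^ k • ξ) := by
                  refine mul_le_mul_of_nonneg_left ?_ (by positivity)
                  exact mul_le_of_le_one_right p0 p1
        _ = ENNReal.ofReal (CK ^ 2) * ∑' k : ℤ, ∑ j ∈ Finset.range (2 ^ u),
            ENNReal.ofReal (Pso (s j) (m j) (m' j) ((2 : ℝ) ^ k • ξ)) := ENNReal.tsum_mul_left
        _ ≤ ENNReal.ofReal (CK ^ 2) * ENNReal.ofReal (D * ((((K : ℤ) + u : ℤ) : ℝ) -
              ((-(u : ℤ) : ℤ) : ℝ) + 8)) := by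
            gcongr
        _ ≤ ENNReal.ofReal (CK ^ 2 * (8 * D) * (K + u + 1)) := by
            rw [← ENNReal.ofReal_mul (by positivity)]
            refine ENNReal.ofReal_le_ofReal ?_
            rw [mul_assoc]
            refine mul_le_mul_of_nonneg_left ?_ (by positivity)
            push_cast
            nlinarith [mul_nonneg hD0.le hK, mul_nonneg hD0.le hu]
    · intro k
      beta_reduce
      rw [hcast k]
      refine ENNReal.ofReal_le_ofReal ?_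
      have h1 := hP u s c m m' R K A σ hS ((2 : ℝ) ^ k • ξ) (hne k)
      linarith
    · intro k hk
      beta_reduce
      rw [hcast k]
      refine ENNReal.ofReal_le_ofReal ?_
      have hterm : ∀ j ∈ Finset.range (2 ^ u),
          Pso (s j) (m j) (m' j) ((2 : ℝ) ^ k • ξ) ≤ (2 : ℝ) ^ k * ‖ξ‖ := by
        intro j hj
        have h := (Pso_bd (s j) (m j) (m' j) ((2 : ℝ) ^ k • ξ)).2.2.1
        rw [hnorm k] at h
        refine h.trans ?_
        have h1 : (2 : ℝ) ^ (-(m' j : ℤ)) ≤ 1 := by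
          rw [zpow_neg, zpow_natCast]
          exact inv_le_one_of_one_le₀ (one_le_pow₀ (by norm_num))
        exact mul_le_of_le_one_right (by positivity) h1
      refine (Finset.sum_le_sum hterm).trans ?_
      rw [Finset.sum_const, Finset.card_range, nsmul_eq_mul]
      have h4 : (2 : ℝ) ^ k * ‖ξ‖ / (2 : ℝ) ^ (-(u : ℤ)) = (2 : ℝ) ^ u * ((2 : ℝ) ^ k * ‖ξ‖) := by
        rw [zpow_neg, zpow_natCast, div_inv_eq_mul]
        ring
      rw [h4]
      push_cast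
      have h5 : 0 ≤ (2 : ℝ) ^ u * ((2 : ℝ) ^ k * ‖ξ‖) := by positivity
      have h6 : (1 : ℝ) ≤ D := by rw [hD]; linarith
      nlinarith
    · intro k hk
      beta_reduce
      rw [hcast k]
      refine ENNReal.ofReal_le_ofReal ?_
      have hkr : 0 < (2 : ℝ) ^ k * ‖ξ‖ := by positivity
      have hterm : ∀ j ∈ Finset.range (2 ^ u),
          Pso (s j) (m j) (m' j) ((2 : ℝ) ^ k • ξ) ≤ (2 : ℝ) ^ K / ((2 : ℝ) ^ k * ‖ξ‖) := by
        intro j hj
        have hj' := Finset.mem_range.mp hj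
        have h := (Pso_bd (s j) (m j) (m' j) ((2 : ℝ) ^ k • ξ)).2.2.2.1
        rw [hnorm k] at h
        have hmK : (2 : ℝ) ^ (m j) ≤ (2 : ℝ) ^ K :=
          pow_le_pow_right₀ (by norm_num) (hS.mm j hj').2
        exact h.trans (div_le_div_of_nonneg_right hmK hkr.le)
      refine (Finset.sum_le_sum hterm).trans ?_
      rw [Finset.sum_const, Finset.card_range, nsmul_eq_mul]
      have h4 : (2 : ℝ) ^ ((K : ℤ) + u) = (2 : ℝ) ^ K * (2 : ℝ) ^ u := by
        rw [zpow_add₀ (by norm_num), zpow_natCast, zpow_natCast]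
      rw [h4]
      push_cast
      have h5 : 0 ≤ (2 : ℝ) ^ K * (2 : ℝ) ^ u / ((2 : ℝ) ^ k * ‖ξ‖) := by positivity
      have h6 : (1 : ℝ) ≤ D := by rw [hD]; linarith
      calc (2 : ℝ) ^ u * ((2 : ℝ) ^ K / ((2 : ℝ) ^ k * ‖ξ‖))
          = 1 * ((2 : ℝ) ^ K * (2 : ℝ) ^ u / ((2 : ℝ) ^ k * ‖ξ‖)) := by ring
        _ ≤ D * ((2 : ℝ) ^ K * (2 : ℝ) ^ u / ((2 : ℝ) ^ k * ‖ξ‖)) :=
            mul_le_mul_of_nonneg_right h6 h5

end Pool.Agent.Helper2.EQ
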