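import Pool.Agent.Helper20.EQ.St1

/-!
# Project EQ, module PSM
-/

set_option autoImplicit false

open MeasureTheory Set Filter Topology
open scoped ENNReal RealInnerProductSpace

namespace Pool.Agent.Helper2.EQ

open Pool.Agent.Helper68.LM (Pl BB Bd Av HL ft fm DQ)
open Pool.Agent.Helper20.RG Pool.Agent.Helper20.EQ

theorem three {a b c : ℝ} (ha : 0 ≤ a) (hb : 0 ≤ b) (hc : 0 ≤ c) (ha1 : a ≤ 1) (hb1 : b ≤ 1)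
    (hc1 : c ≤ 1) : 0 ≤ a * b * c ∧ a * b * c ≤ a ∧ a * b * c ≤ b ∧ a * b * c ≤ c := by
  have h1 : a * b ≤ a := mul_le_of_le_one_right ha hb1
  have h2 : a * b ≤ b := mul_le_of_le_one_left hb ha1
  have h3 : 0 ≤ a * b := mul_nonneg ha hb
  have h4 : a * b * c ≤ a * b := mul_le_of_le_one_right h3 hc1
  have h5 : a * b * c ≤ c := mul_le_of_le_one_left hc (h1.trans ha1)
  exact ⟨mul_nonneg h3 hc, h4.trans h1, h4.trans h2, h5⟩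

/-- elementary bounds of the multiplier -/
theorem Pso_bd (s : ℝ) (m m' : ℕ) (ξ : Pl) :
    0 ≤ Pso s m m' ξ ∧ Pso s m m' ξ ≤ 1 ∧ Pso s m m' ξ ≤ ‖ξ‖ * (2 : ℝ) ^ (-(m' : ℤ)) ∧
      Pso s m m' ξ ≤ (2 : ℝ) ^ m / ‖ξ‖ ∧ Pso s m m' ξ ≤ 1 / (1 + |⟪E s, ξ⟫|) := by
  have hA : 0 ≤ |⟪E s, ξ⟫| := abs_nonneg _
  have a0 : 0 ≤ min 1 (‖ξ‖ * (2 : ℝ) ^ (-(m' : ℤ))) := le_min zero_le_one (by positivity)
  have b0 : 0 ≤ min 1 ((2 : ℝ) ^ m / ‖ξ‖) := le_min zero_le_one (by positivity)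
  have c0 : 0 ≤ 1 / (1 + |⟪E s, ξ⟫|) := by positivity
  have c1 : 1 / (1 + |⟪E s, ξ⟫|) ≤ 1 := by
    rw [div_le_one (by positivity)]
    linarith
  obtain ⟨h1, h2, h3, h4⟩ := three a0 b0 c0 (min_le_left _ _) (min_le_left _ _) c1
  exact ⟨h1, h2.trans (min_le_left _ _), h2.trans (min_le_right _ _), h3.trans (min_le_right _ _),
    h4⟩

theorem hPSM (hSC : StSC) (hSUF : StSUF) : StPSM := by
  classical
  intro C₀ hC₀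
  obtain ⟨C2, hC2, hSC⟩ := hSC C₀ hC₀
  refine ⟨4 * C2 + 12 * Real.sqrt C2, by positivity, ?_⟩
  intro u s c m m' R K A σ hsys ξ hξ
  set f : ℕ → ℝ := fun j => Pso (s j) (m j) (m' j) ξ with hf
  have hf01 : ∀ j < 2 ^ u, 0 ≤ f j ∧ f j ≤ 1 := fun j _ =>
    ⟨(Pso_bd (s j) (m j) (m' j) ξ).1, (Pso_bd (s j) (m j) (m' j) ξ).2.1⟩
  have hcard : ∀ y : ℝ, 0 < y → y ≤ 1 →
      ({j : ℕ | j < 2 ^ u ∧ y ≤ f j}.ncard : ℝ) ≤ C2 * (1 + (1 / (2 : ℝ) ^ u) / y ^ 2) := by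
    intro y hy hy1
    have h1 := hSC u s c m m' R K A σ hsys ξ y 1 hξ hy hy1 one_pos
    have hsub : {j : ℕ | j < 2 ^ u ∧ y ≤ f j} ⊆
        {j : ℕ | j < 2 ^ u ∧ y ≤ ‖ξ‖ * (2 : ℝ) ^ (-(m' j : ℤ)) ∧ 1 * |⟪E (s j), ξ⟫| ≤ 1 / y} := by
      rintro j ⟨hj, hyf⟩
      obtain ⟨-, -, h2, -, h4⟩ := Pso_bd (s j) (m j) (m' j) ξ
      have h5 : y ≤ 1 / (1 + |⟪E (s j), ξ⟫|) := hyf.trans h4
      have h6 : 0 ≤ |⟪E (s j), ξ⟫| := abs_nonneg _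
      refine ⟨hj, hyf.trans h2, ?_⟩
      rw [le_div_iff₀ (by positivity)] at h5
      rw [one_mul, le_div_iff₀ hy]
      nlinarith
    have hfin : {j : ℕ | j < 2 ^ u ∧ y ≤ ‖ξ‖ * (2 : ℝ) ^ (-(m' j : ℤ)) ∧
        1 * |⟪E (s j), ξ⟫| ≤ 1 / y}.Finite :=
      (Set.finite_lt_nat (2 ^ u)).subset (fun j hj => hj.1)
    have h3 : ({j : ℕ | j < 2 ^ u ∧ y ≤ f j}.ncard : ℝ) ≤
        ({j : ℕ | j < 2 ^ u ∧ y ≤ ‖ξ‖ * (2 : ℝ) ^ (-(m' j : ℤ)) ∧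
          1 * |⟪E (s j), ξ⟫| ≤ 1 / y}.ncard : ℝ) := by
      exact_mod_cast Set.ncard_le_ncard hsub hfin
    refine h3.trans (h1.trans (le_of_eq ?_))
    rw [div_div, mul_one]
  have hs := hSUF (2 ^ u) f C2 (1 / (2 : ℝ) ^ u) hC2.le (by positivity) hf01 hcard
  have hsq : C2 * (1 / (2 : ℝ) ^ u) * ((2 ^ u : ℕ) : ℝ) = C2 := by
    push_cast
    field_simp
  rw [hsq] at hs
  exact hs

end Pool.Agent.Helper2.EQ
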